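import Mathlib
import Pool.Agent.V11216.CoarseBase

/-!
# MP_da2089_gt : products of emu-bounded balleans are emu-bounded
-/

namespace Pool.Agent.Results.MP_da2089_gt.EmuProduct

open Set Pool.Agent.V11216.BalleanCore Pool.Agent.V11216.CoarseBase

/-- Eventually macro-uniform functions: for every entourage `E` there is a bounded set `B` with
`sup_{x ∉ B} diam f(E[x]) < ∞`. -/
def EventuallyMacroUniform {X : Type*} (𝓔 : Set (Set (X × X))) (f : X → ℝ) : Prop :=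
  ∀ E ∈ 𝓔, ∃ B, IsBounded 𝓔 B ∧ (⨆ x ∈ Bᶜ, Metric.ediam (f '' ball E x)) < ⊤

/-- emu-bounded balleans: every eventually macro-uniform function is bounded off a bounded
set. -/
def EmuBounded {X : Type*} (𝓔 : Set (Set (X × X))) : Prop :=
  ∀ f : X → ℝ, EventuallyMacroUniform 𝓔 f →
    ∃ B, IsBounded 𝓔 B ∧ ∃ M : ℝ, ∀ x, x ∉ B → |f x| ≤ M

/-- The product ballean: the entourages are the subsets of the sets `E × F`. -/
def prodBallean {X Y : Type*} (𝓔 : Set (Set (X × X))) (𝓕 : Set (Set (Y × Y))) :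
    Set (Set ((X × Y) × (X × Y))) :=
  {G | ∃ E ∈ 𝓔, ∃ F ∈ 𝓕, G ⊆ prodRel E F}

theorem lipBdd {X Y : Type*} {𝓔 : Set (Set (X × X))} {𝓕 : Set (Set (Y × Y))}
    (hX : IsBallean 𝓔) (hY : IsBallean 𝓕) (hXs : EmuBounded 𝓔) (f : X → Y → ℝ)
    (hf : Emu (refl𝓔 𝓔) (refl𝓔 𝓕) f) : LipBdd (refl𝓔 𝓔) f := by
  intro φ hφ
  obtain ⟨B, hB, M, hM⟩ := hXs φ (by
    intro E hE
    obtain ⟨B, C, hB, hC, M, h⟩ := hf _ (union_diag_mem hX.toIsCoarse hE)
      _ (union_diag_mem hY.toIsCoarse hY.diag)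
    refine ⟨B, (bdd_iff hX.toIsCoarse).1 hB, ?_⟩
    refine lt_of_le_of_lt (b := ENNReal.ofReal (2 * max M 0)) ?_ ENNReal.ofReal_lt_top
    refine iSup₂_le fun x hx => ?_
    refine ediam_le_of_abs (m := φ x) (le_max_right _ _) ?_
    intro x' hx'
    refine le_trans ?_ (le_max_left _ _)
    apply hφ
    intro y
    exact h x y (fun h => hx h.1) x' y (Or.inl hx') (Or.inr rfl))
  exact ⟨B, (bdd_iff hX.toIsCoarse).2 hB, M, hM⟩

/-- The product of two emu-bounded balleans is emu-bounded. -/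
theorem result {X Y : Type*} (𝓔 : Set (Set (X × X))) (𝓕 : Set (Set (Y × Y)))
    (hX : IsBallean 𝓔) (hY : IsBallean 𝓕) (hXs : EmuBounded 𝓔) (hYs : EmuBounded 𝓕) :
    EmuBounded (prodBallean 𝓔 𝓕) := by
  intro f hf
  have hne : Nonempty (X × Y) := by
    obtain ⟨B, ⟨E, hE, p, hp⟩, -⟩ := hf _ ⟨_, hX.diag, _, hY.diag, Subset.rfl⟩
    exact ⟨p⟩
  have : Nonempty X := hne.map Prod.fst
  have : Nonempty Y := hne.map Prod.snd
  -- the oscillation condition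
  have h0 : Emu (refl𝓔 𝓔) (refl𝓔 𝓕) (fun x y => f (x, y)) := by
    intro E hE F hF
    obtain ⟨D, hD, h⟩ := hf (prodRel E F) ⟨E, hE.1, F, hF.1, Subset.rfl⟩
    obtain ⟨B, C, hB, hC, hBC⟩ := bounded_prod hD
    set S := ⨆ x ∈ Dᶜ, Metric.ediam (f '' ball (prodRel E F) x) with hS
    refine ⟨B, C, (bdd_iff hX.toIsCoarse).2 hB, (bdd_iff hY.toIsCoarse).2 hC, S.toReal, ?_⟩
    intro x y hxy x' y' hx' hy'
    have hnD : (x, y) ∉ D := fun h' => hxy (hBC _ h')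
    have h1 : Metric.ediam (f '' ball (prodRel E F) (x, y)) ≤ S :=
      le_iSup₂ (f := fun (x : X × Y) (_ : x ∈ Dᶜ) => Metric.ediam (f '' ball (prodRel E F) x))
        (x, y) hnD
    rw [← ENNReal.ofReal_toReal h.ne] at h1
    exact abs_le_of_ediam (S := ball (prodRel E F) (x, y)) ENNReal.toReal_nonneg h1
      ⟨hE.2 x, hF.2 y⟩ ⟨hx', hy'⟩
  have hx : LipBdd (refl𝓔 𝓔) (fun x y => f (x, y)) := lipBdd hX hY hXs _ h0
  have hy : LipBdd (refl𝓔 𝓕) (fun y x => f (x, y)) := lipBdd hY hX hYs _ h0.flip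
  obtain ⟨B, C, hB, hC, M, hM⟩ := core (isBall_refl hX) (isBall_refl hY) h0 hx hy
  obtain ⟨E, hE, x, hBE⟩ := hB
  obtain ⟨F, hF, y, hCF⟩ := hC
  refine ⟨B ×ˢ C, ⟨prodRel E F, ⟨E, hE.1, F, hF.1, Subset.rfl⟩, (x, y), ?_⟩, M, ?_⟩
  · rintro p ⟨h1, h2⟩
    exact ⟨hBE _ h1, hCF _ h2⟩
  · rintro ⟨x, y⟩ h
    exact hM x y (fun h' => h h')

end Pool.Agent.Results.MP_da2089_gt.EmuProduct
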